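import Mathlib
import Pool.Agent.Q209.BlkProc
import Pool.Agent.Q209.W1

/-!
# The parametrized diamond principle for `(ω^ω, =^∞)` gives mad families of block subspaces of
size `ℵ₁`

Let `F` be a countable field and let `E` be the space of finitely supported sequences of elements
of `F`. The principle `◇(ω^ω, =^∞)` implies that there is a mad family of block subspaces of `E` of
cardinality `ℵ₁`; it is also maximal among the almost disjoint families of arbitrary
(infinite-dimensional) subspaces of `E`.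

Idea: the principle gives an unbounded family, hence for each `δ < ω₁` an interval partition
`h_δ` such that for every block subspace `Z` and all large `δ` infinitely many intervals of `h_δ`
contain many vectors of the block basis of `Z`. At step `δ`, guess for each `n` a list of `n + 1`
intervals of `h_δ` with many vectors of `Z` in each of them, whose spans have trivial intersection
with the first `n` of the spaces constructed before. Wrong guesses do not disturb the correct ones
since all vectors are confined to the intervals of the fixed partition `h_δ`, and a linear algebra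
count gives a vector in the list which can be added.
-/

set_option autoImplicit false

namespace Pool.Agent.Results.MP_1dfcde_lc.SmallBlockMad

open Set Filter Module Submodule Q209.Om Q209.Blk
open Pool.Agent.Results.MP_43e680_lc.NonMeagerBound

/-- The principle `◇(ω^ω, =^∞)`: for every Borel map `Φ` from `2^{<ω₁}` to `ω^ω` there is
`g : ω₁ → ω^ω` such that for all `f : ω₁ → 2` the set of the `δ` such that `Φ (f|δ)` and `g δ` agree
infinitely often is stationary. -/
def Diamond : Prop :=
  ∀ Φ : (δ : W1) → (Iio δ → Bool) → ℕ → ℕ, (∀ δ, Measurable (Φ δ)) →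
    ∃ g : W1 → ℕ → ℕ, ∀ f : W1 → Bool,
      IsStat {δ | ∃ᶠ n in atTop, Φ δ (fun x => f x) n = g δ n}

/-- `A` is an almost disjoint family of block subspaces which is not properly contained in another
one. -/
def IsMadBlock {F : Type} [Field F] (A : Set (Submodule F (ℕ →₀ F))) : Prop :=
  ((∀ X ∈ A, IsBlock X) ∧ ∀ X ∈ A, ∀ Y ∈ A, X ≠ Y → AlmostDisjoint X Y) ∧
    ∀ B : Set (Submodule F (ℕ →₀ F)), ((∀ X ∈ B, IsBlock X) ∧
      ∀ X ∈ B, ∀ Y ∈ B, X ≠ Y → AlmostDisjoint X Y) → A ⊆ B → A = B

/-! ### Measurability -/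

section meas

variable {α : Type} [MeasurableSpace α]

theorem meas_all {ι : Type} [Countable ι] {p : ι → α → Prop}
    (h : ∀ i, MeasurableSet {a | p i a}) : MeasurableSet {a | ∀ i, p i a} := by
  have : {a | ∀ i, p i a} = ⋂ i, {a | p i a} := by
    ext a
    simp
  rw [this]
  exact MeasurableSet.iInter h

theorem meas_ex {ι : Type} [Countable ι] {p : ι → α → Prop}
    (h : ∀ i, MeasurableSet {a | p i a}) : MeasurableSet {a | ∃ i, p i a} := by
  have : {a | ∃ i, p i a} = ⋃ i, {a | p i a} := by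
    ext a
    simp
  rw [this]
  exact MeasurableSet.iUnion h

theorem meas_imp {P : Prop} {p : α → Prop} (h : P → MeasurableSet {a | p a}) :
    MeasurableSet {a | P → p a} := by
  by_cases hP : P
  · simpa [hP] using h hP
  · simp [hP]

theorem meas_imp' {p q : α → Prop} (hp : MeasurableSet {a | p a}) (hq : MeasurableSet {a | q a}) :
    MeasurableSet {a | p a → q a} := by
  have : {a | p a → q a} = {a | p a}ᶜ ∪ {a | q a} := by
    ext a
    simp [imp_iff_not_or]
  rw [this]
  exact hp.compl.union hq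

theorem meas_and {p q : α → Prop} (hp : MeasurableSet {a | p a}) (hq : MeasurableSet {a | q a}) :
    MeasurableSet {a | p a ∧ q a} := hp.inter hq

open Classical in
/-- The least number with the property `Q`, or `0`. -/
noncomputable def least (Q : ℕ → Prop) : ℕ := if h : ∃ c, Q c then Nat.find h else 0

theorem least_spec {Q : ℕ → Prop} (h : ∃ c, Q c) : Q (least Q) := by
  classical
  rw [least, dif_pos h]
  exact Nat.find_spec h

theorem meas_least {Q : α → ℕ → Prop} (h : ∀ c, MeasurableSet {a | Q a c}) :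
    Measurable fun a => least (Q a) := by
  classical
  refine measurable_to_countable' fun c => ?_
  have h1 : (fun a => least (Q a)) ⁻¹' {c} =
      {a | (∃ d, Q a d) ∧ Q a c ∧ ∀ d, d < c → Q a d → False} ∪
      {a | c = 0 ∧ ∀ d, Q a d → False} := by
    ext a
    simp only [mem_preimage, mem_singleton_iff, mem_union, mem_ofPred_eq]
    by_cases hex : ∃ d, Q a d
    · rw [least, dif_pos hex]
      constructor
      · rintro rfl
        exact Or.inl ⟨hex, Nat.find_spec hex, fun d hd => Nat.find_min hex hd⟩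
      · rintro (⟨_, h1, h2⟩ | ⟨_, h1⟩)
        · exact (Nat.find_eq_iff hex).2 ⟨h1, fun d hd => h2 d hd⟩
        · obtain ⟨d, hd⟩ := hex
          exact absurd hd (h1 d)
    · rw [least, dif_neg hex]
      constructor
      · rintro rfl
        exact Or.inr ⟨rfl, fun d hd => hex ⟨d, hd⟩⟩
      · rintro (⟨h1, _⟩ | ⟨rfl, _⟩)
        · exact absurd h1 hex
        · rfl
  rw [h1]
  refine MeasurableSet.union ?_ ?_
  · exact meas_and (meas_ex h) (meas_and (h c)
      (meas_all fun d => meas_imp fun _ => meas_imp' (h d) (by simp)))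
  · exact meas_and (by simp) (meas_all fun d => meas_imp' (h d) (by simp))

theorem meas_bit (δ x : W1) :
    MeasurableSet {f : Iio δ → Bool | ∃ h : x < δ, f ⟨x, h⟩ = true} := by
  by_cases h : x < δ
  · have : {f : Iio δ → Bool | ∃ h : x < δ, f ⟨x, h⟩ = true} =
        (fun f : Iio δ → Bool => f ⟨x, h⟩) ⁻¹' {true} := by
      ext f
      simp [h]
    rw [this]
    exact (measurable_pi_apply _) (measurableSet_singleton true)
  · simp [h]

end meas

/-! ### An unbounded family -/

theorem exists_inj (ι : Type) [Countable ι] : ∃ ρ : Option W1 × ι → W1, Function.Injective ρ := by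
  have h1 : Cardinal.mk (Option W1 × ι) ≤ Cardinal.mk W1 := by
    rw [Cardinal.mk_prod, Cardinal.lift_id, Cardinal.lift_id, Cardinal.mk_option]
    have h0 : Cardinal.aleph0 ≤ Cardinal.mk W1 := by
      rw [mk_W1]
      exact Cardinal.aleph0_le_aleph 1
    refine Cardinal.mul_le_of_le h0 ?_ (Cardinal.mk_le_aleph0.trans h0)
    exact Cardinal.add_le_of_le h0 le_rfl (Cardinal.one_le_aleph0.trans h0)
  obtain ⟨e⟩ := h1
  exact ⟨e, e.injective⟩

/-- The closure points of a coding. -/
theorem club_code {ι : Type} [Countable ι] (ρ : Option W1 × ι → W1) (c : W1) :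
    ∃ C, IsClubSet C ∧ ∀ δ ∈ C, c < δ ∧ (∀ j, ρ (none, j) < δ) ∧
      ∀ y < δ, ∀ j, ρ (some y, j) < δ := by
  obtain ⟨b, hb⟩ := bdd fun j => ρ (none, j)
  choose f hf using fun y : W1 => bdd fun j => ρ (some y, j)
  refine ⟨_, club_closure f (max b c), fun δ hδ => ?_⟩
  exact ⟨(le_max_right _ _).trans_lt hδ.1, fun j => (hb j).trans ((le_max_left _ _).trans_lt hδ.1),
    fun y hy j => (hf y j).trans (hδ.2 y hy)⟩

theorem exists_unbounded (hD : Diamond) : ∃ u : W1 → ℕ → ℕ, ∀ x : ℕ → ℕ, ∃ β,
    ∃ᶠ n in atTop, x n < u β n := by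
  classical
  obtain ⟨ρ, hρ⟩ := exists_inj (ℕ × ℕ)
  let Φ : (δ : W1) → (Iio δ → Bool) → ℕ → ℕ := fun δ f n =>
    least fun c => ∃ h : ρ (none, (n, c)) < δ, f ⟨_, h⟩ = true
  have hΦ : ∀ δ, Measurable (Φ δ) := by
    intro δ
    refine measurable_pi_lambda _ fun n => ?_
    exact meas_least fun c => meas_bit δ _
  obtain ⟨g, hg⟩ := hD Φ hΦ
  refine ⟨g, fun x => ?_⟩
  let f : W1 → Bool := fun w => decide (∃ n, w = ρ (none, (n, x n + 1)))
  obtain ⟨C, hC, hC2⟩ := club_code ρ (ρ (none, (0, 0)))
  obtain ⟨δ, hδ, hδC⟩ := hg f C hC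
  refine ⟨δ, ?_⟩
  refine Filter.Frequently.mono hδ fun n hn => ?_
  have h1 : Φ δ (fun x => f x) n = x n + 1 := by
    have h2 : ∃ c, ∃ h : ρ (none, (n, c)) < δ, (fun x : Iio δ => f x) ⟨_, h⟩ = true := by
      refine ⟨x n + 1, (hC2 δ hδC).2.1 _, ?_⟩
      simp only [f, decide_eq_true_eq]
      exact ⟨n, rfl⟩
    have key : ∀ c, (∃ h : ρ (none, (n, c)) < δ, (fun x : Iio δ => f x) ⟨_, h⟩ = true) →
        c = x n + 1 := by
      rintro c ⟨h3, h4⟩
      simp only [f, decide_eq_true_eq] at h4
      obtain ⟨m, hm⟩ := h4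
      have h5 := hρ hm
      simp only [Prod.mk.injEq, true_and] at h5
      rw [h5.2, h5.1]
    exact key _ (least_spec h2)
  show x n < g δ n
  rw [← hn, h1]
  exact Nat.lt_succ_self _

theorem partition_single (U h : ℕ → ℕ) (hm : StrictMono h) (h0 : h 0 = 0)
    (hU : ∀ k, ∀ j ≤ h k, U j < h (k + 1)) (i : ℕ → ℕ) (hi : StrictMono i)
    (hub : ∃ᶠ m in atTop, i (m + 2) < U m) :
    ∃ᶠ k in atTop, ∃ n, h k ≤ i n ∧ i (n + 1) ≤ h (k + 1) := by
  by_contra hcon
  rw [not_frequently, eventually_atTop] at hcon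
  obtain ⟨k0, hk0⟩ := hcon
  obtain ⟨m, hm1, hlt⟩ := (frequently_atTop.1 hub) (h k0)
  obtain ⟨k, hk1, hk2⟩ :=
    Pool.Agent.Results.MP_3edc48_gt.MinSizeNonM.exists_block hm h0 m
  have hk : k0 ≤ k := by
    have : h k0 < h (k + 1) := lt_of_le_of_lt hm1 hk2
    have := hm.lt_iff_lt.1 this
    omega
  have h1 : U m < h (k + 2) := hU (k + 1) m hk2.le
  have him : m ≤ i m := hi.id_le m
  rcases le_total (h (k + 1)) (i (m + 1)) with h2 | h2
  · exact hk0 (k + 1) (by omega) ⟨m + 1, h2, by
      have : i (m + 1 + 1) = i (m + 2) := rfl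
      have : h (k + 1 + 1) = h (k + 2) := rfl
      omega⟩
  · exact hk0 k hk ⟨m, by omega, h2⟩

/-- Partitions which are good for all large indices. -/
theorem exists_partitions (hD : Diamond) : ∃ h : W1 → ℕ → ℕ, (∀ δ, StrictMono (h δ)) ∧
    ∀ i : ℕ → ℕ, StrictMono i → ∃ β, ∀ δ, β ≤ δ →
      ∃ᶠ k in atTop, ∃ n, h δ k ≤ i n ∧ i (n + 1) ≤ h δ (k + 1) := by
  classical
  obtain ⟨u, hu⟩ := exists_unbounded hD
  have hdom : ∀ δ, ∃ U : ℕ → ℕ, ∀ β ≤ δ, ∀ᶠ n in atTop, u β n ≤ U n := by
    intro δ
    have := countable_Iic δ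
    have : Nonempty (Iic δ) := ⟨⟨δ, mem_Iic.2 le_rfl⟩⟩
    obtain ⟨e, he⟩ := exists_surjective_nat (Iic δ)
    refine ⟨fun n => (Finset.range (n + 1)).sup fun j => u (e j) n, fun β hβ => ?_⟩
    obtain ⟨j, hj⟩ := he ⟨β, hβ⟩
    filter_upwards [eventually_ge_atTop j] with n hn
    have h1 : u (e j) n ≤ (Finset.range (n + 1)).sup fun j => u (e j) n :=
      Finset.le_sup (f := fun j => u (e j) n) (Finset.mem_range.2 (Nat.lt_succ_of_le hn))
    rw [hj] at h1
    exact h1
  choose U hU using hdom
  choose h hh1 hh2 hh3 using fun δ =>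
    Pool.Agent.Results.MP_3edc48_gt.MinSizeNonM.exists_partition (U δ)
  refine ⟨h, hh1, fun i hi => ?_⟩
  obtain ⟨β, hβ⟩ := hu fun m => i (m + 2)
  refine ⟨β, fun δ hδ => partition_single (U δ) (h δ) (hh1 δ) (hh2 δ) (hh3 δ) i hi ?_⟩
  refine (hβ.and_eventually (hU δ β hδ)).mono fun m hm => hm.1.trans_le hm.2

/-! ### The construction -/

section constr

variable {F : Type} [Field F]

/-- The even and the odd coordinates. -/
noncomputable def base (F : Type) [Field F] (b : Bool) : Submodule F (ℕ →₀ F) :=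
  span F (range fun n : ℕ => Finsupp.single (2 * n + b.toNat) (1 : F))

theorem base_block (b : Bool) : IsBlock (base F b) := by
  refine ⟨fun n => Finsupp.single (2 * n + b.toNat) (1 : F), ⟨fun n => ?_, ?_⟩, rfl⟩
  · exact Finsupp.single_ne_zero.2 one_ne_zero
  · intro n i hi j hj
    rw [Finsupp.support_single_ne_zero _ one_ne_zero, Finset.mem_singleton] at hi hj
    omega

theorem base_inf : base F false ⊓ base F true = ⊥ := by
  rw [eq_bot_iff]
  rintro x ⟨h0, h1⟩
  rw [Submodule.mem_bot]
  by_contra hne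
  obtain ⟨i, hi⟩ := Finsupp.support_nonempty_iff.2 hne
  have key : ∀ b : Bool, x ∈ base F b → i ∈ {i | i % 2 = b.toNat} := by
    intro b hb
    refine span_support _ {i | i % 2 = b.toNat} ?_ x hb i hi
    rintro _ ⟨n, rfl⟩ j hj
    rw [Finsupp.support_single_ne_zero _ one_ne_zero, Finset.mem_singleton] at hj
    rw [mem_ofPred_eq, hj]
    cases b <;> simp [Nat.add_mod]
  have h2 := key false h0
  have h3 := key true h1
  simp only [mem_ofPred_eq, Bool.toNat_false, Bool.toNat_true] at h2 h3
  omega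

variable (en : (δ : W1) → ℕ → Iio δ ⊕ Bool) (h : W1 → ℕ → ℕ)
  (G : W1 → ℕ → List (ℕ × List (ℕ →₀ F)))

/-- The spaces which are considered at step `δ`. -/
noncomputable def fam (δ : W1) (rec : ∀ y : W1, y < δ → Submodule F (ℕ →₀ F)) (i : ℕ) :
    Submodule F (ℕ →₀ F) :=
  match en δ i with
  | Sum.inl y => rec y.1 y.2
  | Sum.inr b => base F b

open Classical in
/-- The recursive construction of the spaces; some of them may be trivial. -/
noncomputable def Y : W1 → Submodule F (ℕ →₀ F) :=
  WellFounded.fix (wellFounded_lt (α := W1)) fun δ rec =>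
    if (Keys (h δ) (fam en δ rec) (G δ)).Infinite then Lim (h δ) (fam en δ rec) (G δ) else ⊥

/-- The spaces considered at step `δ`. -/
noncomputable def T (δ : W1) : ℕ → Submodule F (ℕ →₀ F) :=
  fam en δ fun y _ => Y en h G y

open Classical in
theorem Y_eq (δ : W1) : Y en h G δ = if (Keys (h δ) (T en h G δ) (G δ)).Infinite then
    Lim (h δ) (T en h G δ) (G δ) else ⊥ := by
  rw [Y, WellFounded.fix_eq]
  rfl

end constr

theorem isBlock_ne_bot {F : Type} [Field F] {X : Submodule F (ℕ →₀ F)} (hX : IsBlock X) :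
    X ≠ ⊥ := by
  rintro rfl
  exact hX.not_fd inferInstance

theorem aleph_one_le_nonM : Cardinal.aleph 1 ≤ nonM := by
  rw [nonM_eq]
  by_contra hcon
  push Not at hcon
  have h1 := lt_aleph_one.1 hcon
  obtain ⟨X, hX, hm⟩ := Pool.Agent.Results.MP_3edc48_gt.MinSizeNonM.nonM_mem
  rw [← hX] at h1
  exact hm (Pool.Agent.Results.MP_3edc48_gt.MinSizeNonM.countable_meagre
    (Cardinal.le_aleph0_iff_set_countable.1 h1))

theorem result (F : Type) [Field F] [Countable F] (hD : Diamond) :
    ∃ A : Set (Submodule F (ℕ →₀ F)), IsMadBlock A ∧ IsMad A ∧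
      Cardinal.mk A = Cardinal.aleph 1 := by
  classical
  have hcE : Countable (ℕ →₀ F) := inferInstance
  obtain ⟨h, hh1, hh2⟩ := exists_partitions hD
  -- enumerations
  have hen : ∀ δ : W1, ∃ e : ℕ → Iio δ ⊕ Bool, Function.Surjective e := by
    intro δ
    have := countable_Iio δ
    exact exists_surjective_nat _
  choose en hen using hen
  -- coding
  obtain ⟨ρ, hρ⟩ := exists_inj (ℕ →₀ F)
  obtain ⟨cd, hcd⟩ := exists_surjective_nat (List (ℕ × List (ℕ →₀ F)))
  let ζ : (δ : W1) → (Iio δ → Bool) → (ℕ →₀ F) → Prop := fun δ f v =>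
    ∃ hlt : ρ (none, v) < δ, f ⟨_, hlt⟩ = true
  let τ : (δ : W1) → (Iio δ → Bool) → ℕ → (ℕ →₀ F) → Prop := fun δ f i v =>
    match en δ i with
    | Sum.inl y => ∃ hlt : ρ (some y.1, v) < δ, f ⟨_, hlt⟩ = true
    | Sum.inr b => v ∈ base F b
  have hτm : ∀ δ i v, MeasurableSet {f : Iio δ → Bool | τ δ f i v} := by
    intro δ i v
    simp only [τ]
    cases en δ i with
    | inl y => exact meas_bit δ _
    | inr b => simp
  let Φ : (δ : W1) → (Iio δ → Bool) → ℕ → ℕ := fun δ f n =>
    least fun c => Good (h δ) (τ δ f) (ζ δ f) n (cd c)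
  have hΦ : ∀ δ, Measurable (Φ δ) := by
    intro δ
    refine measurable_pi_lambda _ fun n => ?_
    refine meas_least fun c => ?_
    unfold Good
    refine meas_and (by simp) (meas_and ?_ ?_)
    · exact meas_all fun q => meas_imp fun _ => meas_all fun v => meas_imp fun _ => meas_bit δ _
    · exact meas_all fun q => meas_imp fun _ => meas_all fun i => meas_imp fun _ =>
        meas_all fun x => meas_imp fun _ => meas_imp' (hτm δ i x) (by simp)
  obtain ⟨g, hg⟩ := hD Φ hΦ
  let G : W1 → ℕ → List (ℕ × List (ℕ →₀ F)) := fun δ n => cd (g δ n)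
  let Y' := Y en h G
  have hYeq := Y_eq en h G
  -- the family
  let A : Set (Submodule F (ℕ →₀ F)) := range (base F) ∪ {X | X ≠ ⊥ ∧ ∃ δ, Y' δ = X}
  have hYblock : ∀ δ, Y' δ ≠ ⊥ → IsBlock (Y' δ) := by
    intro δ hne
    simp only [Y'] at hne ⊢
    rw [hYeq] at hne ⊢
    split_ifs at hne ⊢ with hK
    · exact Lim_block _ _ _ (hh1 δ) hK
    · exact absurd rfl hne
  have hblock : ∀ X ∈ A, IsBlock X := by
    rintro X (⟨b, rfl⟩ | ⟨hne, δ, rfl⟩)
    · exact base_block b
    · exact hYblock δ hne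
  have hYT : ∀ δ i, FiniteDimensional F (Y' δ ⊓ T en h G δ i : Submodule F (ℕ →₀ F)) := by
    intro δ i
    have key : ∀ X : Submodule F (ℕ →₀ F), X = (if (Keys (h δ) (T en h G δ) (G δ)).Infinite then
        Lim (h δ) (T en h G δ) (G δ) else ⊥) →
        FiniteDimensional F (X ⊓ T en h G δ i : Submodule F (ℕ →₀ F)) := by
      intro X hX
      by_cases hK : (Keys (h δ) (T en h G δ) (G δ)).Infinite
      · rw [if_pos hK] at hX
        rw [hX]
        exact Lim_ad (h δ) (T en h G δ) (G δ) i
      · rw [if_neg hK] at hX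
        rw [hX, bot_inf_eq]
        infer_instance
    exact key _ (hYeq δ)
  have hYbase : ∀ δ b, FiniteDimensional F (Y' δ ⊓ base F b : Submodule F (ℕ →₀ F)) := by
    intro δ b
    obtain ⟨i, hi⟩ := hen δ (Sum.inr b)
    have h1 := hYT δ i
    have h2 : T en h G δ i = base F b := by
      rw [T, fam, hi]
    rwa [h2] at h1
  have hYY : ∀ δ y, y < δ → FiniteDimensional F (Y' δ ⊓ Y' y : Submodule F (ℕ →₀ F)) := by
    intro δ y hy
    obtain ⟨i, hi⟩ := hen δ (Sum.inl ⟨y, hy⟩)
    have h1 := hYT δ i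
    have h2 : T en h G δ i = Y' y := by
      rw [T, fam, hi]
    rwa [h2] at h1
  have had : ∀ X ∈ A, ∀ X' ∈ A, X ≠ X' → AlmostDisjoint X X' := by
    rintro X (⟨b, rfl⟩ | ⟨hne, δ, rfl⟩) X' (⟨b', rfl⟩ | ⟨hne', δ', rfl⟩) hXX'
    · show FiniteDimensional F (base F b ⊓ base F b' : Submodule F (ℕ →₀ F))
      have h1 : base F b ⊓ base F b' = ⊥ := by
        cases b <;> cases b'
        · exact absurd rfl hXX'
        · exact base_inf
        · rw [inf_comm]
          exact base_inf
        · exact absurd rfl hXX'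
      rw [h1]
      infer_instance
    · show FiniteDimensional F (base F b ⊓ Y' δ' : Submodule F (ℕ →₀ F))
      rw [inf_comm]
      exact hYbase δ' b
    · exact hYbase δ b'
    · rcases lt_trichotomy δ δ' with hlt | heq | hgt
      · show FiniteDimensional F (Y' δ ⊓ Y' δ' : Submodule F (ℕ →₀ F))
        rw [inf_comm]
        exact hYY δ' δ hlt
      · exact absurd (congrArg Y' heq) hXX'
      · exact hYY δ δ' hgt
  -- maximality
  have hmax : ∀ Z : Submodule F (ℕ →₀ F), IsBlock Z →
      ∃ X ∈ A, ¬ FiniteDimensional F (X ⊓ Z : Submodule F (ℕ →₀ F)) := by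
    rintro _ ⟨z, hz, rfl⟩
    by_contra hcon
    push Not at hcon
    obtain ⟨i, hi1, hi2⟩ := exists_int hz
    obtain ⟨β, hβ⟩ := hh2 i hi1
    let f : W1 → Bool := fun w => decide (∃ v : ℕ →₀ F,
      (w = ρ (none, v) ∧ v ∈ span F (range z)) ∨ ∃ y, w = ρ (some y, v) ∧ v ∈ Y' y)
    have hf1 : ∀ v, f (ρ (none, v)) = true ↔ v ∈ span F (range z) := by
      intro v
      simp only [f, decide_eq_true_eq]
      constructor
      · rintro ⟨v', ⟨h1, h2⟩ | ⟨y, h1, _⟩⟩
        · have := hρ h1
          simp only [Prod.mk.injEq, true_and] at this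
          rw [this]
          exact h2
        · have := hρ h1
          simp at this
      · intro hv
        exact ⟨v, Or.inl ⟨rfl, hv⟩⟩
    have hf2 : ∀ y v, f (ρ (some y, v)) = true ↔ v ∈ Y' y := by
      intro y v
      simp only [f, decide_eq_true_eq]
      constructor
      · rintro ⟨v', ⟨h1, _⟩ | ⟨y', h1, h2⟩⟩
        · have := hρ h1
          simp at this
        · have := hρ h1
          simp only [Prod.mk.injEq, Option.some.injEq] at this
          rw [this.1, this.2]
          exact h2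
      · intro hv
        exact ⟨v, Or.inr ⟨y, rfl, hv⟩⟩
    obtain ⟨C, hC, hC2⟩ := club_code ρ β
    obtain ⟨δ, hδ, hδC⟩ := hg f C hC
    obtain ⟨hβδ, hC3, hC4⟩ := hC2 δ hδC
    -- decoding
    have hζ : ∀ v, ζ δ (fun x => f x) v ↔ v ∈ span F (range z) := by
      intro v
      simp only [ζ]
      rw [← hf1 v]
      exact ⟨fun ⟨_, h'⟩ => h', fun h' => ⟨hC3 v, h'⟩⟩
    have hτ : ∀ i v, τ δ (fun x => f x) i v ↔ v ∈ T en h G δ i := by
      intro i v
      simp only [τ, T, fam]
      cases en δ i with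
      | inl y =>
        simp only
        rw [← show f (ρ (some y.1, v)) = true ↔ v ∈ Y en h G y.1 from hf2 y.1 v]
        exact ⟨fun ⟨_, h'⟩ => h', fun h' => ⟨hC4 y.1 y.2 v, h'⟩⟩
      | inr b => rfl
    have hζ' : ζ δ (fun x => f x) = fun x => x ∈ span F (range z) :=
      funext fun v => propext (hζ v)
    have hτ' : τ δ (fun x => f x) = fun i x => x ∈ T en h G δ i :=
      funext fun i => funext fun v => propext (hτ i v)
    have hTfd : ∀ j, FiniteDimensional F
        (span F (range z) ⊓ T en h G δ j : Submodule F (ℕ →₀ F)) := by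
      intro j
      by_cases hT : T en h G δ j = ⊥
      · rw [hT, inf_bot_eq]
        infer_instance
      · have hTA : T en h G δ j ∈ A := by
          revert hT
          simp only [T, fam]
          cases en δ j with
          | inl y => exact fun hT => Or.inr ⟨hT, y.1, rfl⟩
          | inr b => exact fun _ => Or.inl ⟨b, rfl⟩
        rw [inf_comm]
        exact hcon _ hTA
    have hgood : ∀ n, Good (h δ) (fun i x => x ∈ T en h G δ i)
        (fun x => x ∈ span F (range z)) n (cd (Φ δ (fun x => f x) n)) := by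
      intro n
      obtain ⟨c, hc⟩ := exists_good_code (hh1 δ) hz i hi2 (hβ δ hβδ.le) hTfd n
      obtain ⟨m, rfl⟩ := hcd c
      have h1 : ∃ c, Good (h δ) (τ δ (fun x => f x)) (ζ δ (fun x => f x)) n (cd c) := by
        rw [hζ', hτ']
        exact ⟨m, hc⟩
      have h2 := least_spec h1
      rw [hζ', hτ'] at h2
      have h3 : Φ δ (fun x => f x) n = least fun c => Good (h δ)
          (fun i x => x ∈ T en h G δ i) (fun x => x ∈ span F (range z)) n (cd c) := by
        simp only [Φ, hζ', hτ']
      rw [h3]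
      exact h2
    have hinf : {n | Good (h δ) (fun i x => x ∈ T en h G δ i)
        (fun x => x ∈ span F (range z)) n (G δ n)}.Infinite := by
      rw [Set.infinite_iff_exists_gt]
      intro a
      obtain ⟨n, hn, hn2⟩ := (frequently_atTop.1 hδ) (a + 1)
      refine ⟨n, ?_, by omega⟩
      rw [mem_ofPred_eq]
      simp only [G]
      rw [← hn2]
      exact hgood n
    obtain ⟨hK, hnfd⟩ := Lim_meets (hh1 δ) hinf
    have hYδ : Y' δ = Lim (h δ) (T en h G δ) (G δ) := by
      simp only [Y']
      rw [hYeq, if_pos hK]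
    rw [← hYδ] at hnfd
    refine hnfd (hcon (Y' δ) (Or.inr ⟨?_, δ, rfl⟩))
    intro hbot
    apply hnfd
    rw [hbot, bot_inf_eq]
    infer_instance
  -- maximality among all subspaces
  have hmax' : ∀ Z : Submodule F (ℕ →₀ F), ¬ FiniteDimensional F Z →
      ∃ X ∈ A, ¬ FiniteDimensional F (X ⊓ Z : Submodule F (ℕ →₀ F)) := by
    intro Z hZ
    obtain ⟨Z', hZ', hb⟩ := exists_block_le Z hZ
    obtain ⟨X, hX, hXZ⟩ := hmax Z' hb
    refine ⟨X, hX, fun hfd => hXZ ?_⟩
    exact Submodule.finiteDimensional_of_le (inf_le_inf_left X hZ')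
  have hMad : IsMad A := by
    refine ⟨⟨fun X hX => (hblock X hX).not_fd, had⟩, fun B hB hAB => ?_⟩
    apply Set.Subset.antisymm hAB
    intro Z hZ
    by_contra hZA
    obtain ⟨X, hX, hXZ⟩ := hmax' Z (hB.1 Z hZ)
    exact hXZ (hB.2 X (hAB hX) Z hZ fun h' => hZA (h' ▸ hX))
  have hMadB : IsMadBlock A := by
    refine ⟨⟨hblock, had⟩, fun B hB hAB => ?_⟩
    exact hMad.2 B ⟨fun X hX => (hB.1 X hX).not_fd, hB.2⟩ hAB
  refine ⟨A, hMadB, hMad, le_antisymm ?_ ?_⟩
  · have h1 : A ⊆ range (base F) ∪ range Y' := by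
      rintro X (hX | ⟨_, δ, rfl⟩)
      · exact Or.inl hX
      · exact Or.inr (mem_range_self δ)
    refine (Cardinal.mk_le_mk_of_subset h1).trans ((Cardinal.mk_union_le _ _).trans ?_)
    have h0 : Cardinal.aleph0 ≤ Cardinal.aleph 1 := Cardinal.aleph0_le_aleph 1
    refine Cardinal.add_le_of_le h0 ?_ ?_
    · exact (Cardinal.mk_le_aleph0 (α := range (base F))).trans h0
    · refine Cardinal.mk_range_le.trans ?_
      rw [mk_W1]
  · refine aleph_one_le_nonM.trans
      (Pool.Agent.Results.MP_43e680_lc.NonMeagerBound.result A hMad ?_)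
    refine ⟨base F false, Or.inl (mem_range_self _), base F true, Or.inl (mem_range_self _), ?_⟩
    intro h'
    have h1 := base_inf (F := F)
    rw [← h', inf_idem] at h1
    exact isBlock_ne_bot (base_block false) h1

end Pool.Agent.Results.MP_1dfcde_lc.SmallBlockMad
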